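import Pool.Agent.Helper86.SJ.Defs

/-! # SJ, package BOUND -/

set_option autoImplicit false

open Finset

namespace SJ.H5

theorem arc_anti {n : ℕ} (F : Finset (Fin n → ℤ)) (x y : Fin n) (h : Arc F x y) :
    ¬ Arc F y x := by
  rintro ⟨-, -, -, c, -, hc⟩
  obtain ⟨-, ⟨v, hv, hv1, hv2⟩, ⟨w, hw, hw1, hw2⟩, -⟩ := h
  have h1 := hc v hv hv2 (by rw [hv1]; decide)
  have h2 := hc w hw hw2 (by rw [hw1]; decide)
  rw [hv1] at h1
  rw [hw1] at h2
  omega

theorem card_of_mem_EX {n k : ℕ} {F : Finset (Fin n → ℤ)} {S : Finset (Fin n)}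
    (h : S ∈ EX k F) : #S = k := by
  classical
  unfold EX HH LL at h
  rw [mem_union, mem_filter, mem_filter] at h
  rcases h with h | h
  · exact (mem_powersetCard.1 h.1).2
  · exact (mem_powersetCard.1 h.1).2

theorem sum_exP {n k : ℕ} (F : Finset (Fin n → ℤ)) (U : Finset (Fin n × Fin n)) :
    ∑ p ∈ U, #(exP k F p.1 p.2) ≤ k ^ 2 * #(EX k F) := by
  classical
  have e1 : ∀ p ∈ U, #(exP k F p.1 p.2) = ∑ S ∈ EX k F, if p.1 ∈ S ∧ p.2 ∈ S then 1 else 0 := by
    intro p _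
    rw [← card_filter]
    unfold exP
    congr 1
  rw [sum_congr rfl e1, sum_comm]
  calc ∑ S ∈ EX k F, ∑ p ∈ U, (if p.1 ∈ S ∧ p.2 ∈ S then 1 else 0)
      ≤ ∑ _S ∈ EX k F, k ^ 2 := by
        refine sum_le_sum fun S hS => ?_
        rw [← card_filter]
        have : U.filter (fun p => p.1 ∈ S ∧ p.2 ∈ S) ⊆ S ×ˢ S := by
          intro p hp
          rw [mem_filter] at hp
          exact mem_product.2 hp.2
        refine (card_le_card this).trans ?_
        rw [card_product, card_of_mem_EX hS]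
        exact le_of_eq (by ring)
    _ = k ^ 2 * #(EX k F) := by rw [sum_const, smul_eq_mul]; ring

theorem BOUND (hSUM : SUMStm) (hUP : UPStm) (hLOW : LOWStm) (hSMALL : SMALLStm) : BOUNDStm := by
  classical
  intro k hk
  set W : ℕ := 1 + 2 ^ k with hW
  set m : ℕ := 8 * (k - 2) ^ 2 * k ^ 2 * W with hm
  refine ⟨W * (2 * ((2 * m + 1) ^ 2 * m.choose (k - 2))), fun n F hF hbig => ?_⟩
  have hk2 : 0 < k - 2 := by omega
  have hW0 : 0 < W := by rw [hW]; positivity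
  have hm0 : 0 < m := by positivity
  set h : ℕ := #(HH k F) with hh
  have h1 : #(LL k F) ≤ 2 ^ k * h := by
    have h0 := hSUM n k F hk hF.1
    rw [← hh] at h0
    omega
  have h2 : #(EX k F) ≤ W * h := by
    have : #(EX k F) ≤ #(HH k F) + #(LL k F) := by
      unfold EX
      exact card_union_le _ _
    calc _ ≤ _ := this
      _ ≤ h + 2 ^ k * h := by omega
      _ = W * h := by rw [hW]; ring
  suffices h3 : h ≤ 2 * ((2 * m + 1) ^ 2 * m.choose (k - 2)) from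
    h2.trans (Nat.mul_le_mul_left W h3)
  -- the pairs
  set CP : Finset (Fin n × Fin n) :=
    univ.filter (fun p => p.1 ≠ p.2 ∧ ∃ v ∈ F, ClashV F v p.1 p.2) with hCP
  have hcov : HH k F ⊆ CP.biUnion (fun p => cP F p.1 p.2) := by
    intro S hS
    unfold HH at hS
    rw [mem_filter] at hS
    obtain ⟨-, v, hv, hvS, x, y, hxy, hcl⟩ := hS
    rw [mem_biUnion]
    refine ⟨(x, y), ?_, ?_⟩
    · rw [hCP, mem_filter]
      exact ⟨mem_univ _, hxy, v, hv, hcl⟩
    · unfold cP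
      rw [mem_image]
      exact ⟨v, mem_filter.2 ⟨hv, hcl⟩, hvS⟩
  have h4 : h ≤ ∑ p ∈ CP, #(cP F p.1 p.2) := (card_le_card hcov).trans card_biUnion_le
  have key : ∀ p ∈ CP, (m * #(cP F p.1 p.2) ≤ 4 * (k - 2) ^ 2 * #(exP k F p.1 p.2)) ∨
      ((n ≤ #((univ : Finset (Fin n)).filter (fun u => Arc F u p.1)) + m + 1) ∧
        (n ≤ #((univ : Finset (Fin n)).filter (fun u => Arc F u p.2)) + m + 1) ∧
        #(cP F p.1 p.2) ≤ m.choose (k - 2)) := by
    intro p hp
    rw [hCP, mem_filter] at hp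
    obtain ⟨-, hne, v, hv, hcl⟩ := hp
    obtain ⟨μ, hμ, hlow⟩ := hLOW n k F hk hF.1 p.1 p.2 hne v hv hcl
    obtain ⟨hu1, hu2⟩ := hUP n k F hk hF p.1 p.2 hne v hv hcl μ hμ
    rcases Nat.lt_or_ge μ m with hc | hc
    · right
      have hDx : DD F p.1 p.2 ⊆ (univ : Finset (Fin n)).filter (fun u => Arc F u p.1) := by
        intro f hf
        unfold DD at hf
        rw [mem_filter] at hf ⊢
        exact ⟨mem_univ _, hf.2.1⟩
      have hDy : DD F p.1 p.2 ⊆ (univ : Finset (Fin n)).filter (fun u => Arc F u p.2) := by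
        intro f hf
        unfold DD at hf
        rw [mem_filter] at hf ⊢
        exact ⟨mem_univ _, hf.2.2.1⟩
      have c1 := card_le_card hDx
      have c2 := card_le_card hDy
      refine ⟨by omega, by omega, hu2.trans (Nat.choose_le_choose _ hc.le)⟩
    · left
      obtain ⟨ν, rfl⟩ : ∃ ν, μ = ν + 1 := ⟨μ - 1, by omega⟩
      obtain ⟨j, hj⟩ : ∃ j, k = j + 3 := ⟨k - 3, by omega⟩
      have e1 : k - 2 = j + 1 := by omega
      have e2 : k - 3 = j := by omega
      rw [e1, e2] at hu1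
      rw [e1] at hlow ⊢
      have e3 : (ν + 1) * ν.choose j = (ν + 1).choose (j + 1) * (j + 1) :=
        Nat.add_one_mul_choose_eq ν j
      calc m * #(cP F p.1 p.2) ≤ (ν + 1) * #(cP F p.1 p.2) := Nat.mul_le_mul_right _ hc
        _ ≤ (ν + 1) * (4 * ((j + 1) * (ν + 1 - 1).choose j)) := Nat.mul_le_mul_left _ hu1
        _ = 4 * (j + 1) * ((ν + 1) * ν.choose j) := by
            rw [Nat.add_sub_cancel]; ring
        _ = 4 * (j + 1) ^ 2 * (ν + 1).choose (j + 1) := by rw [e3]; ring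
        _ ≤ 4 * (j + 1) ^ 2 * #(exP k F p.1 p.2) := Nat.mul_le_mul_left _ hlow
  set Z : Finset (Fin n) :=
    univ.filter (fun x => n ≤ #(univ.filter (fun u => Arc F u x)) + m + 1) with hZ
  have hZc : #Z ≤ 2 * m + 1 := by
    have := hSMALL n m (Arc F) (fun x y => arc_anti F x y)
    convert this
  set SM := CP.filter (fun p => p.1 ∈ Z ∧ p.2 ∈ Z ∧ #(cP F p.1 p.2) ≤ m.choose (k - 2)) with hSM
  set BG := CP.filter (fun p => ¬ (p.1 ∈ Z ∧ p.2 ∈ Z ∧ #(cP F p.1 p.2) ≤ m.choose (k - 2)))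
    with hBG
  have hsplit : ∑ p ∈ CP, #(cP F p.1 p.2) = ∑ p ∈ SM, #(cP F p.1 p.2) +
      ∑ p ∈ BG, #(cP F p.1 p.2) := by
    rw [hSM, hBG]
    exact (sum_filter_add_sum_filter_not _ _ _).symm
  have hsm : ∑ p ∈ SM, #(cP F p.1 p.2) ≤ (2 * m + 1) ^ 2 * m.choose (k - 2) := by
    calc ∑ p ∈ SM, #(cP F p.1 p.2) ≤ ∑ _p ∈ SM, m.choose (k - 2) := by
          refine sum_le_sum fun p hp => ?_
          rw [hSM, mem_filter] at hp
          exact hp.2.2.2
      _ = #SM * m.choose (k - 2) := by rw [sum_const, smul_eq_mul]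
      _ ≤ (2 * m + 1) ^ 2 * m.choose (k - 2) := by
          refine Nat.mul_le_mul_right _ ?_
          have : SM ⊆ Z ×ˢ Z := by
            intro p hp
            rw [hSM, mem_filter] at hp
            exact mem_product.2 ⟨hp.2.1, hp.2.2.1⟩
          calc #SM ≤ #(Z ×ˢ Z) := card_le_card this
            _ = #Z * #Z := card_product _ _
            _ ≤ (2 * m + 1) * (2 * m + 1) := Nat.mul_le_mul hZc hZc
            _ = _ := by ring
  have hbg : m * ∑ p ∈ BG, #(cP F p.1 p.2) ≤ 4 * (k - 2) ^ 2 * (k ^ 2 * #(EX k F)) := by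
    rw [mul_sum]
    calc ∑ p ∈ BG, m * #(cP F p.1 p.2) ≤ ∑ p ∈ BG, 4 * (k - 2) ^ 2 * #(exP k F p.1 p.2) := by
          refine sum_le_sum fun p hp => ?_
          rw [hBG, mem_filter] at hp
          rcases key p hp.1 with h' | ⟨a1, a2, a3⟩
          · exact h'
          · exfalso
            apply hp.2
            refine ⟨?_, ?_, a3⟩
            · rw [hZ, mem_filter]
              exact ⟨mem_univ _, a1⟩
            · rw [hZ, mem_filter]
              exact ⟨mem_univ _, a2⟩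
      _ = 4 * (k - 2) ^ 2 * ∑ p ∈ BG, #(exP k F p.1 p.2) := by rw [mul_sum]
      _ ≤ _ := Nat.mul_le_mul_left _ (sum_exP F BG)
  have hbg2 : 2 * ∑ p ∈ BG, #(cP F p.1 p.2) ≤ h := by
    refine Nat.le_of_mul_le_mul_left ?_ hm0
    calc m * (2 * ∑ p ∈ BG, #(cP F p.1 p.2)) = 2 * (m * ∑ p ∈ BG, #(cP F p.1 p.2)) := by ring
      _ ≤ 2 * (4 * (k - 2) ^ 2 * (k ^ 2 * #(EX k F))) := Nat.mul_le_mul_left _ hbg
      _ ≤ 2 * (4 * (k - 2) ^ 2 * (k ^ 2 * (W * h))) := by gcongr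
      _ = m * h := by rw [hm]; ring
  omega

end SJ.H5
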